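import Mathlib

set_option autoImplicit false

open Filter Topology

namespace Pool.Agent.Results.MP_2bde17_co.DoubleStar

/-- `G` contains `T`: some subgraph of `G` is isomorphic to `T`. -/
def Contains {V W : Type} (G : SimpleGraph V) (T : SimpleGraph W) : Prop :=
  ∃ g : W → V, Function.Injective g ∧ ∀ a b, T.Adj a b → G.Adj (g a) (g b)

open Classical in
/-- The largest eigenvalue of the adjacency matrix. -/
noncomputable def lam {V : Type} [Fintype V] (G : SimpleGraph V) : ℝ :=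
  sSup {x : ℝ | ∃ v : V → ℝ, v ≠ 0 ∧ (G.adjMatrix ℝ).mulVec v = x • v}

/-- `spex(n,T)`, the maximum of `lam G` over the `T`-free graphs `G` on `n` vertices. -/
noncomputable def spex {W : Type} (n : ℕ) (T : SimpleGraph W) : ℝ :=
  sSup {x : ℝ | ∃ G : SimpleGraph (Fin n), ¬ Contains G T ∧ x = lam G}

/-- The join of the edgeless graph on `l` vertices and of `m` disjoint copies of the star on `δ`
vertices (the centre of a star is its vertex `0`). -/
def joinGraph (l m δ : ℕ) : SimpleGraph (Fin l ⊕ (Fin m × Fin δ)) where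
  Adj x y :=
    match x, y with
    | .inl _, .inl _ => False
    | .inl _, .inr _ => True
    | .inr _, .inl _ => True
    | .inr p, .inr q => p.1 = q.1 ∧ p.2 ≠ q.2 ∧ (p.2.val = 0 ∨ q.2.val = 0)
  symm := by
    refine ⟨?_⟩
    rintro (x | x) (y | y) h
    · exact h
    · trivial
    · trivial
    · exact ⟨h.1.symm, h.2.1.symm, h.2.2.symm⟩
  loopless := by
    refine ⟨?_⟩
    rintro (x | x) h
    · exact h
    · exact h.2.1 rfl

/-- The degree of a vertex. -/
noncomputable def deg {W : Type} (T : SimpleGraph W) (a : W) : ℕ := (T.neighborSet a).ncard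

/-- `T ∈ 𝒯_{m,l+1}^δ`: `T` is a tree on `m` vertices with colour classes `A` and its complement,
`|A| = l+1 ≤ |Aᶜ|`, `δ` is the minimum degree over `A`, and if also `|Aᶜ| = l+1` then no vertex of
the other class has a smaller degree. -/
def InClass {W : Type} [Fintype W] [DecidableEq W] (T : SimpleGraph W) (m l δ : ℕ) : Prop :=
  T.IsTree ∧ Fintype.card W = m ∧
    ∃ A : Finset W, (∀ a b, T.Adj a b → (a ∈ A ↔ b ∉ A)) ∧
      A.card = l + 1 ∧ l + 1 ≤ Aᶜ.card ∧
      (∀ a ∈ A, δ ≤ deg T a) ∧ (∃ a ∈ A, deg T a = δ) ∧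
      (Aᶜ.card = l + 1 → ∀ a ∈ Aᶜ, δ ≤ deg T a)

/-- The function `f(x,n)` (for the given `l`). -/
noncomputable def f (l : ℕ) (x : ℝ) (n : ℕ) : ℝ :=
  ((l + x - 1) + √((l + x - 1) ^ 2 + 4 * (n * l + x - l * x - (l : ℝ) ^ 2))) / 2

/-- The assertion of Q1. -/
def Q1 : Prop :=
  ∀ (m l δ : ℕ) (T : SimpleGraph (Fin m)), 2 ≤ m → 1 ≤ δ → InClass T m l δ →
    ¬ Contains (joinGraph l m δ) T →
    ∃ (C : ℝ) (N : ℕ), ∀ n : ℕ, N ≤ n → |spex n T - f l ((δ : ℝ) - 1) n| ≤ C / n

/-- The double star on 6 vertices: adjacent centres `0`, `1`, each with two leaves. -/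
def D : SimpleGraph (Fin 6) := SimpleGraph.fromRel fun a b =>
  (a = 0 ∧ b = 1) ∨ (a = 0 ∧ b = 2) ∨ (a = 0 ∧ b = 3) ∨ (a = 1 ∧ b = 4) ∨ (a = 1 ∧ b = 5)

instance : DecidableRel D.Adj := by
  unfold D
  infer_instance

lemma deg_eq {W : Type} [Fintype W] (T : SimpleGraph W) [DecidableRel T.Adj] (a : W) :
    deg T a = T.degree a := by
  unfold deg
  rw [← SimpleGraph.card_neighborSet_eq_degree, ← Nat.card_eq_fintype_card]
  rfl

lemma D_tree : D.IsTree := by
  rw [SimpleGraph.isTree_iff_connected_and_card]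
  constructor
  · have h : ∀ a : Fin 6, D.Reachable 0 a := by
      have h1 : D.Adj 0 1 := by decide
      have h2 : D.Adj 0 2 := by decide
      have h3 : D.Adj 0 3 := by decide
      have h4 : D.Adj 1 4 := by decide
      have h5 : D.Adj 1 5 := by decide
      intro a
      fin_cases a
      · exact SimpleGraph.Reachable.refl _
      · exact h1.reachable
      · exact h2.reachable
      · exact h3.reachable
      · exact h1.reachable.trans h4.reachable
      · exact h1.reachable.trans h5.reachable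
    have : Nonempty (Fin 6) := ⟨0⟩
    exact ⟨fun a b => (h a).symm.trans (h b)⟩
  · rw [Nat.card_eq_fintype_card, Nat.card_eq_fintype_card, ← SimpleGraph.edgeFinset_card]
    decide

lemma D_class : InClass D 6 2 1 := by
  refine ⟨D_tree, rfl, {0, 4, 5}, by decide, by decide, by decide, ?_, ?_, ?_⟩
  · simp only [deg_eq]
    decide
  · simp only [deg_eq]
    decide
  · simp only [deg_eq]
    decide

lemma D_not : ¬ Contains (joinGraph 2 6 1) D := by
  rintro ⟨g, hg, h⟩
  set L : Finset (Fin 6) := Finset.univ.filter fun a => (g a).isLeft with hL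
  have h1 : ∀ a b, D.Adj a b → (a ∈ L ↔ b ∉ L) := by
    intro a b hab
    have h2 := h a b hab
    simp only [hL, Finset.mem_filter, Finset.mem_univ, true_and]
    rcases ha : g a with x | x <;> rcases hb : g b with y | y <;> rw [ha, hb] at h2
    · exact absurd h2 (by simp [joinGraph])
    · simp
    · simp
    · exfalso
      exact h2.2.1 (Subsingleton.elim _ _)
  have h3 : L.card ≤ 2 := by
    have h4 : L.card ≤ (Finset.univ : Finset (Fin 2)).card := by
      refine Finset.card_le_card_of_injOn (fun a => ((g a).elim id fun _ => 0)) (by simp) ?_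
      intro a ha b hb hab
      simp only [hL, Finset.coe_filter, Finset.mem_univ, true_and, Set.mem_ofPred_eq] at ha hb
      rcases ha' : g a with x | x
      · rcases hb' : g b with y | y
        · simp only [ha', hb', Sum.elim_inl, id] at hab
          apply hg
          rw [ha', hb', hab]
        · rw [hb'] at hb
          simp at hb
      · rw [ha'] at ha
        simp at ha
    simpa using h4
  have h5 : ∀ L : Finset (Fin 6), (∀ a b, D.Adj a b → (a ∈ L ↔ b ∉ L)) → 3 ≤ L.card := by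
    decide
  have := h5 L h1
  omega

lemma contains_of_deg {n : ℕ} (G : SimpleGraph (Fin n)) [DecidableRel G.Adj] {u w : Fin n}
    (huw : G.Adj u w) (hu : 5 ≤ G.degree u) (hw : 3 ≤ G.degree w) : Contains G D := by
  have h1 : 1 < (G.neighborFinset w \ {u}).card := by
    have := Finset.le_card_sdiff {u} (G.neighborFinset w)
    rw [Finset.card_singleton, SimpleGraph.card_neighborFinset_eq_degree] at this
    omega
  obtain ⟨c1, hc1, c2, hc2, hc⟩ := Finset.one_lt_card.1 h1
  have h2 : 1 < (G.neighborFinset u \ {w, c1, c2}).card := by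
    have := Finset.le_card_sdiff {w, c1, c2} (G.neighborFinset u)
    rw [SimpleGraph.card_neighborFinset_eq_degree] at this
    have h3 : ({w, c1, c2} : Finset (Fin n)).card ≤ 3 := Finset.card_le_three
    omega
  obtain ⟨e1, he1, e2, he2, he⟩ := Finset.one_lt_card.1 h2
  simp only [Finset.mem_sdiff, SimpleGraph.mem_neighborFinset, Finset.mem_insert,
    Finset.mem_singleton, not_or] at hc1 hc2 he1 he2
  obtain ⟨a1, a2⟩ := hc1
  obtain ⟨b1, b2⟩ := hc2
  obtain ⟨p1, p2, p3, p4⟩ := he1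
  obtain ⟨q1, q2, q3, q4⟩ := he2
  have n1 := huw.ne
  have n2 := a1.ne
  have n3 := b1.ne
  have n4 := p1.ne
  have n5 := q1.ne
  refine ⟨![u, w, e1, e2, c1, c2], ?_, ?_⟩
  · intro a b hab
    fin_cases a <;> fin_cases b <;> simp at hab ⊢ <;> (exfalso; subst_vars; simp_all)
  · intro a b hab
    have h3 : ∀ a b : Fin 6, D.Adj a b → (a = 0 ∧ b = 1) ∨ (a = 0 ∧ b = 2) ∨ (a = 0 ∧ b = 3) ∨
        (a = 1 ∧ b = 4) ∨ (a = 1 ∧ b = 5) ∨ (b = 0 ∧ a = 1) ∨ (b = 0 ∧ a = 2) ∨
        (b = 0 ∧ a = 3) ∨ (b = 1 ∧ a = 4) ∨ (b = 1 ∧ a = 5) := by decide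
    rcases h3 a b hab with ⟨rfl, rfl⟩ | ⟨rfl, rfl⟩ | ⟨rfl, rfl⟩ | ⟨rfl, rfl⟩ | ⟨rfl, rfl⟩ |
      ⟨rfl, rfl⟩ | ⟨rfl, rfl⟩ | ⟨rfl, rfl⟩ | ⟨rfl, rfl⟩ | ⟨rfl, rfl⟩
    · exact huw
    · exact p1
    · exact q1
    · exact a1
    · exact b1
    · exact huw.symm
    · exact p1.symm
    · exact q1.symm
    · exact a1.symm
    · exact b1.symm

lemma deg_mul_le {n : ℕ} (hn : 9 ≤ n) (G : SimpleGraph (Fin n)) [DecidableRel G.Adj]
    (hG : ¬ Contains G D) {u w : Fin n} (huw : G.Adj u w) :
    G.degree u * G.degree w ≤ 2 * (n - 1) := by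
  have h1 : ∀ v, G.degree v ≤ n - 1 := by
    intro v
    have := G.degree_lt_card_verts v
    rw [Fintype.card_fin] at this
    omega
  have hu := h1 u
  have hw := h1 w
  by_cases c1 : G.degree w ≤ 2
  · calc G.degree u * G.degree w ≤ (n - 1) * 2 := Nat.mul_le_mul hu c1
      _ = 2 * (n - 1) := mul_comm _ _
  by_cases c2 : G.degree u ≤ 2
  · exact Nat.mul_le_mul c2 hw
  have c3 : G.degree u ≤ 4 := by
    by_contra h
    exact hG (contains_of_deg G huw (by omega) (by omega))
  have c4 : G.degree w ≤ 4 := by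
    by_contra h
    exact hG (contains_of_deg G huw.symm (by omega) (by omega))
  calc G.degree u * G.degree w ≤ 4 * 4 := Nat.mul_le_mul c3 c4
    _ ≤ 2 * (n - 1) := by omega

lemma eig_le {n : ℕ} (hn : 9 ≤ n) (G : SimpleGraph (Fin n)) [DecidableRel G.Adj]
    (hG : ¬ Contains G D) {x : ℝ} {v : Fin n → ℝ} (hv : v ≠ 0)
    (hx : (G.adjMatrix ℝ).mulVec v = x • v) : x ≤ √(2 * ((n : ℝ) - 1)) := by
  set M := √(2 * ((n : ℝ) - 1)) with hM
  have hn' : (9 : ℝ) ≤ n := by exact_mod_cast hn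
  have hM0 : 0 < M := Real.sqrt_pos.2 (by linarith)
  by_contra hlt
  push Not at hlt
  have hx0 : 0 < x := hM0.trans hlt
  have hev : ∀ u, x * v u = ∑ w ∈ G.neighborFinset u, v w := by
    intro u
    have := congrFun hx u
    rw [SimpleGraph.adjMatrix_mulVec_apply, Pi.smul_apply, smul_eq_mul] at this
    exact this.symm
  set y : Fin n → ℝ := fun u => |v u| / √(G.degree u) with hy
  have : Nonempty (Fin n) := ⟨⟨0, by omega⟩⟩
  obtain ⟨u, -, hu⟩ := Finset.exists_max_image Finset.univ y Finset.univ_nonempty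
  have hy0 : ∀ w, 0 ≤ y w := fun w => by positivity
  have hyu : 0 < y u := by
    rcases (hy0 u).lt_or_eq with h | h
    · exact h
    · exfalso
      apply hv
      funext w
      have h1 : y w = 0 := le_antisymm ((hu w (Finset.mem_univ _)).trans h.ge) (hy0 w)
      rcases div_eq_zero_iff.1 h1 with h2 | h2
      · exact abs_eq_zero.1 h2
      · have h3 : G.degree w = 0 := by
          rw [Real.sqrt_eq_zero (Nat.cast_nonneg _)] at h2
          exact_mod_cast h2
        have h4 := hev w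
        rw [Finset.card_eq_zero.1 h3, Finset.sum_empty] at h4
        rcases mul_eq_zero.1 h4 with h5 | h5
        · exact absurd h5 hx0.ne'
        · exact h5
  have hdu : 0 < √(G.degree u : ℝ) := by
    by_contra h
    have h0 : √(G.degree u : ℝ) = 0 := le_antisymm (not_lt.1 h) (Real.sqrt_nonneg _)
    simp only [hy, h0, div_zero] at hyu
    exact lt_irrefl _ hyu
  have hvu : |v u| = y u * √(G.degree u) := by
    simp only [hy]
    field_simp
  have h1 : x * |v u| ≤ ∑ w ∈ G.neighborFinset u, y u * (M / √(G.degree u)) := by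
    have h2 : x * |v u| = |∑ w ∈ G.neighborFinset u, v w| := by
      rw [← hev, abs_mul, abs_of_pos hx0]
    rw [h2]
    refine (Finset.abs_sum_le_sum_abs _ _).trans (Finset.sum_le_sum fun w hw => ?_)
    rw [SimpleGraph.mem_neighborFinset] at hw
    have hdw : 0 < √(G.degree w : ℝ) := by
      apply Real.sqrt_pos.2
      have : 0 < G.degree w := (G.degree_pos_iff_exists_adj w).2 ⟨u, hw.symm⟩
      exact_mod_cast this
    have h3 : |v w| = y w * √(G.degree w) := by
      simp only [hy]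
      field_simp
    rw [h3]
    refine mul_le_mul (hu w (Finset.mem_univ _)) ?_ hdw.le hyu.le
    rw [le_div_iff₀ hdu, ← Real.sqrt_mul (Nat.cast_nonneg _), hM]
    refine Real.sqrt_le_sqrt ?_
    have h4 := deg_mul_le hn G hG hw
    have h5 : ((G.degree u * G.degree w : ℕ) : ℝ) ≤ ((2 * (n - 1) : ℕ) : ℝ) := by
      exact_mod_cast h4
    push_cast [Nat.cast_sub (show 1 ≤ n by omega)] at h5
    linarith
  rw [Finset.sum_const, nsmul_eq_mul, SimpleGraph.card_neighborFinset_eq_degree] at h1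
  have h2 : (G.degree u : ℝ) * (y u * (M / √(G.degree u))) = M * |v u| := by
    rw [hvu]
    have h3 : (G.degree u : ℝ) = √(G.degree u) * √(G.degree u) :=
      (Real.mul_self_sqrt (Nat.cast_nonneg _)).symm
    field_simp
    rw [sq, ← h3]
  rw [h2] at h1
  have h3 : 0 < |v u| := by
    rw [hvu]
    positivity
  have h4 : x ≤ M := le_of_mul_le_mul_right h1 h3
  linarith

lemma spex_le {n : ℕ} (hn : 9 ≤ n) : spex n D ≤ √(2 * ((n : ℝ) - 1)) := by
  classical
  refine Real.sSup_le ?_ (Real.sqrt_nonneg _)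
  rintro x ⟨G, hG, rfl⟩
  refine Real.sSup_le ?_ (Real.sqrt_nonneg _)
  rintro x ⟨v, hv, hx⟩
  exact eig_le hn G hG hv hx

lemma spex_gap {n : ℕ} (hn : 9 ≤ n) : spex n D ≤ f 2 ((1 : ℕ) - 1 : ℝ) n - 1 / 4 := by
  refine (spex_le hn).trans ?_
  have hn' : (9 : ℝ) ≤ n := by exact_mod_cast hn
  unfold f
  have h1 : ((2 : ℕ) + (((1 : ℕ) : ℝ) - 1) - 1 : ℝ) = 1 := by push_cast; ring
  have h2 : (1 : ℝ) ^ 2 + 4 * (n * (2 : ℕ) + (((1 : ℕ) : ℝ) - 1) - (2 : ℕ) * (((1 : ℕ) : ℝ) - 1)
      - ((2 : ℕ) : ℝ) ^ 2) = 8 * n - 15 := by push_cast; ring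
  rw [h1, h2]
  have h3 : √(2 * ((n : ℝ) - 1)) ≤ (1 / 2 + √(8 * n - 15)) / 2 := by
    have h4 : 0 ≤ √(8 * (n : ℝ) - 15) := Real.sqrt_nonneg _
    have h5 : √(8 * (n : ℝ) - 15) * √(8 * (n : ℝ) - 15) = 8 * n - 15 :=
      Real.mul_self_sqrt (by linarith)
    have h6 : 7 ≤ √(8 * (n : ℝ) - 15) := by
      rw [Real.le_sqrt' (by norm_num)]
      linarith
    rw [Real.sqrt_le_left (by positivity)]
    nlinarith
  linarith

/-- For the double star `D` on six vertices (a tree of `𝒯_{6,3}^1`, so `l = 2`, `δ = 1`), which is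
not contained in the join of the edgeless graph on two vertices and `6 S_1`, the spectral Turán
number stays below `f(δ-1,n)` by at least `1/4` for `n ≥ 9`. In particular Q1 fails. -/
theorem result :
    InClass D 6 2 1 ∧ ¬ Contains (joinGraph 2 6 1) D ∧
    (∀ n : ℕ, 9 ≤ n → spex n D ≤ f 2 ((1 : ℕ) - 1 : ℝ) n - 1 / 4) ∧
    ¬ Q1 := by
  refine ⟨D_class, D_not, fun n hn => spex_gap hn, ?_⟩
  intro h
  obtain ⟨C, N, hC⟩ := h 6 2 1 D (by norm_num) le_rfl D_class D_not
  obtain ⟨n, hn⟩ := exists_nat_gt (4 * |C|)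
  have h1 := hC (max N (max 9 n)) (le_max_left _ _)
  have h2 := spex_gap (n := max N (max 9 n)) (by omega)
  have h3 : (n : ℝ) ≤ ((max N (max 9 n) : ℕ) : ℝ) := by
    exact_mod_cast (le_max_right 9 n).trans (le_max_right _ _)
  have h4 : (9 : ℝ) ≤ ((max N (max 9 n) : ℕ) : ℝ) := by
    exact_mod_cast (le_max_left 9 n).trans (le_max_right _ _)
  generalize hm : max N (max 9 n) = m at *
  have h5 : 1 / 4 ≤ C / m := by
    refine le_trans ?_ h1
    rw [abs_sub_comm]
    refine le_trans ?_ (le_abs_self _)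
    linarith
  rw [le_div_iff₀ (by linarith)] at h5
  have := le_abs_self C
  linarith

end Pool.Agent.Results.MP_2bde17_co.DoubleStar
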